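import Pool.Agent.Q136.NCC.Stm

set_option autoImplicit false

/-! Project NCC (helper136), job MO1: fractional linear maps of the projective line. -/

namespace Pool.Agent.Q285.NCC

open Pool.Agent.Q136.NCC

theorem mo_none {F : Type} [Field F] [DecidableEq F] (a b c d : F) :
    mo a b c d none = if c = 0 then none else some (a / c) := rfl

theorem mo_some {F : Type} [Field F] [DecidableEq F] (a b c d t : F) :
    mo a b c d (some t) = if c * t + d = 0 then none else some ((a * t + b) / (c * t + d)) := rfl

/-- the inverse map -/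
theorem mo_inv {F : Type} [Field F] [DecidableEq F] (a b c d : F) (h : a * d - b * c ≠ 0)
    (t : Option F) : mo d (-b) (-c) a (mo a b c d t) = t := by
  cases t with
  | none =>
    rw [mo_none]
    by_cases hc : c = 0
    · rw [if_pos hc, mo_none, if_pos (by rw [hc, neg_zero])]
    · rw [if_neg hc, mo_some, if_pos (by field_simp; ring)]
  | some t =>
    rw [mo_some]
    by_cases ht : c * t + d = 0
    · have hc : c ≠ 0 := by
        intro hc
        rw [hc, zero_mul, zero_add] at ht
        apply h
        rw [hc, ht]
        ring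
      rw [if_pos ht, mo_none, if_neg (neg_ne_zero.2 hc)]
      congr 1
      have h1 : d = -(c * t) := by linear_combination ht
      rw [h1]
      field_simp
    · rw [if_neg ht, mo_some]
      have h1 : -c * ((a * t + b) / (c * t + d)) + a = (a * d - b * c) / (c * t + d) := by
        field_simp
        ring
      have h2 : d * ((a * t + b) / (c * t + d)) + -b = (a * d - b * c) * t / (c * t + d) := by
        rw [mul_div_assoc', div_add' _ _ _ ht]
        congr 1
        ring
      rw [h1, h2, if_neg (div_ne_zero h ht)]
      congr 1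
      field_simp

theorem t_MO1 : S_MO1 := by
  intro F _ _
  refine ⟨fun a b c d h => ?_, ?_, ?_, fun a b c d h t => mo_inv a b c d h t⟩
  · intro t t' htt
    have h1 := congrArg (mo d (-b) (-c) a) htt
    rw [mo_inv a b c d h, mo_inv a b c d h] at h1
    exact h1
  · intro s₀ s₁ s₂ h01 h02 h12
    cases s₀ with
    | none =>
      cases s₁ with
      | none => exact absurd rfl h01
      | some s₁ =>
        cases s₂ with
        | none => exact absurd rfl h02
        | some s₂ =>
          have h3 : s₂ - s₁ ≠ 0 := sub_ne_zero.2 (fun h => h12 (by rw [h]))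
          refine ⟨1, -s₁, 0, s₂ - s₁, by rw [one_mul, mul_zero, sub_zero]; exact h3, ?_, ?_, ?_⟩
          · rw [mo_none, if_pos rfl]
          · rw [mo_some, if_neg (by rw [zero_mul, zero_add]; exact h3)]
            congr 1
            rw [one_mul, add_neg_cancel, zero_div]
          · rw [mo_some, if_neg (by rw [zero_mul, zero_add]; exact h3)]
            congr 1
            rw [one_mul, zero_mul, zero_add, ← sub_eq_add_neg, div_self h3]
    | some s₀ =>
      cases s₁ with
      | none =>
        cases s₂ with
        | none => exact absurd rfl h12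
        | some s₂ =>
          have h3 : s₂ - s₀ ≠ 0 := sub_ne_zero.2 (fun h => h02 (by rw [h]))
          refine ⟨0, s₂ - s₀, 1, -s₀, by rw [zero_mul, zero_sub, mul_one]; exact neg_ne_zero.2 h3,
            ?_, ?_, ?_⟩
          · rw [mo_some, if_pos (by ring)]
          · rw [mo_none, if_neg one_ne_zero, zero_div]
          · have h4 : 1 * s₂ + -s₀ = s₂ - s₀ := by ring
            rw [mo_some, h4, if_neg h3]
            congr 1
            rw [zero_mul, zero_add, div_self h3]
      | some s₁ =>
        have h5 : s₁ - s₀ ≠ 0 := sub_ne_zero.2 (fun h => h01 (by rw [h]))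
        cases s₂ with
        | none =>
          refine ⟨1, -s₁, 1, -s₀, ?_, ?_, ?_, ?_⟩
          · have h4 : 1 * -s₀ - -s₁ * 1 = s₁ - s₀ := by ring
            rw [h4]
            exact h5
          · rw [mo_some, if_pos (by ring)]
          · have h4 : 1 * s₁ + -s₀ = s₁ - s₀ := by ring
            rw [mo_some, h4, if_neg h5]
            congr 1
            rw [one_mul, add_neg_cancel, zero_div]
          · rw [mo_none, if_neg one_ne_zero, div_one]
        | some s₂ =>
          have h3 : s₂ - s₁ ≠ 0 := sub_ne_zero.2 (fun h => h12 (by rw [h]))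
          have h4 : s₂ - s₀ ≠ 0 := sub_ne_zero.2 (fun h => h02 (by rw [h]))
          refine ⟨s₂ - s₀, -s₁ * (s₂ - s₀), s₂ - s₁, -s₀ * (s₂ - s₁), ?_, ?_, ?_, ?_⟩
          · have h6 : (s₂ - s₀) * (-s₀ * (s₂ - s₁)) - -s₁ * (s₂ - s₀) * (s₂ - s₁) =
                (s₂ - s₀) * (s₂ - s₁) * (s₁ - s₀) := by ring
            rw [h6]
            exact mul_ne_zero (mul_ne_zero h4 h3) h5
          · rw [mo_some, if_pos (by ring)]
          · have h6 : (s₂ - s₁) * s₁ + -s₀ * (s₂ - s₁) = (s₂ - s₁) * (s₁ - s₀) := by ring
            have h7 : (s₂ - s₀) * s₁ + -s₁ * (s₂ - s₀) = 0 := by ring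
            rw [mo_some, h6, h7, if_neg (mul_ne_zero h3 h5), zero_div]
          · have h6 : (s₂ - s₁) * s₂ + -s₀ * (s₂ - s₁) = (s₂ - s₁) * (s₂ - s₀) := by ring
            have h7 : (s₂ - s₀) * s₂ + -s₁ * (s₂ - s₀) = (s₂ - s₁) * (s₂ - s₀) := by ring
            rw [mo_some, h6, h7, if_neg (mul_ne_zero h3 h4), div_self (mul_ne_zero h3 h4)]
  · intro a b c d h hn h0 h1 t
    have hc : c = 0 := by
      by_contra hc
      rw [mo_none, if_neg hc] at hn
      exact absurd hn (Option.some_ne_none _)
    subst hc
    have had : a * d ≠ 0 := by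
      intro h2
      apply h
      rw [h2]
      ring
    have ha : a ≠ 0 := left_ne_zero_of_mul had
    have hd : d ≠ 0 := right_ne_zero_of_mul had
    rw [mo_some, zero_mul, zero_add, if_neg hd, mul_zero, zero_add, Option.some_inj,
      div_eq_zero_iff] at h0
    have hb : b = 0 := h0.resolve_right hd
    subst hb
    rw [mo_some, zero_mul, zero_add, if_neg hd, mul_one, add_zero, Option.some_inj,
      div_eq_one_iff_eq hd] at h1
    subst h1
    cases t with
    | none => exact hn
    | some t =>
      rw [mo_some, zero_mul, zero_add, if_neg ha, add_zero]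
      congr 1
      field_simp

end Pool.Agent.Q285.NCC
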