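import Pool.Agent.Q136.NCC.Stm
import Pool.Agent.Q285.NCC.MO1

set_option autoImplicit false

/-! Project NCC (helper136), job MO4: rigidity of the normal rational curve. -/

namespace Pool.Agent.Q285.NCC

open Pool.Agent.Q136.NCC
open Pool.Agent.Q136.RNC (nrc)

/-- the product of two fractional linear maps -/
theorem mo_comp {F : Type} [Field F] [DecidableEq F] (a b c d a' b' c' d' : F)
    (h' : a' * d' - b' * c' ≠ 0) (t : Option F) :
    mo a b c d (mo a' b' c' d' t) =
      mo (a * a' + b * c') (a * b' + b * d') (c * a' + d * c') (c * b' + d * d') t := by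
  cases t with
  | none =>
    rw [mo_none a' b', mo_none (a * a' + b * c')]
    by_cases hc : c' = 0
    · rw [if_pos hc, mo_none]
      have ha : a' ≠ 0 := by
        intro ha
        apply h'
        rw [ha, hc]
        ring
      rw [hc, mul_zero, add_zero, mul_zero, add_zero]
      by_cases hcc : c = 0
      · rw [if_pos hcc, if_pos (by rw [hcc, zero_mul])]
      · rw [if_neg hcc, if_neg (mul_ne_zero hcc ha)]
        congr 1
        field_simp
    · rw [if_neg hc, mo_some]
      have h1 : c * (a' / c') + d = (c * a' + d * c') / c' := by field_simp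
      have h2 : a * (a' / c') + b = (a * a' + b * c') / c' := by field_simp
      rw [h1, h2]
      by_cases h3 : c * a' + d * c' = 0
      · rw [if_pos h3, if_pos (by rw [h3, zero_div])]
      · rw [if_neg h3, if_neg (div_ne_zero h3 hc)]
        congr 1
        field_simp
  | some t =>
    rw [mo_some a' b', mo_some (a * a' + b * c')]
    have e1 : (c * a' + d * c') * t + (c * b' + d * d') = c * (a' * t + b') + d * (c' * t + d') := by
      ring
    have e2 : (a * a' + b * c') * t + (a * b' + b * d') = a * (a' * t + b') + b * (c' * t + d') := by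
      ring
    rw [e1, e2]
    by_cases ht : c' * t + d' = 0
    · rw [if_pos ht, mo_none, ht, mul_zero, add_zero, mul_zero, add_zero]
      have h3 : a' * t + b' ≠ 0 := by
        intro h3
        apply h'
        have hd : d' = -(c' * t) := by linear_combination ht
        have hb : b' = -(a' * t) := by linear_combination h3
        rw [hd, hb]
        ring
      by_cases hc : c = 0
      · rw [if_pos hc, if_pos (by rw [hc, zero_mul])]
      · rw [if_neg hc, if_neg (mul_ne_zero hc h3)]
        congr 1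
        field_simp
    · rw [if_neg ht, mo_some]
      have h1 : c * ((a' * t + b') / (c' * t + d')) + d =
          (c * (a' * t + b') + d * (c' * t + d')) / (c' * t + d') := by
        rw [mul_div_assoc', div_add' _ _ _ ht]
      have h2 : a * ((a' * t + b') / (c' * t + d')) + b =
          (a * (a' * t + b') + b * (c' * t + d')) / (c' * t + d') := by
        rw [mul_div_assoc', div_add' _ _ _ ht]
      rw [h1, h2]
      by_cases h3 : c * (a' * t + b') + d * (c' * t + d') = 0
      · rw [if_pos h3, if_pos (by rw [h3, zero_div])]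
      · rw [if_neg h3, if_neg (div_ne_zero h3 ht)]
        congr 1
        exact div_div_div_cancel_right₀ ht _ _

theorem pr_symm {F : Type} [Field F] {k : ℕ} {x y : Fin k → F} (h : Pr x y) : Pr y x := by
  obtain ⟨c, hc, h1⟩ := h
  refine ⟨c⁻¹, inv_ne_zero hc, ?_⟩
  rw [h1, smul_smul, inv_mul_cancel₀ hc, one_smul]

theorem pr_trans {F : Type} [Field F] {k : ℕ} {x y z : Fin k → F} (h : Pr x y) (h' : Pr y z) :
    Pr x z := by
  obtain ⟨c, hc, h1⟩ := h
  obtain ⟨c', hc', h2⟩ := h'
  exact ⟨c * c', mul_ne_zero hc hc', by rw [h1, h2, smul_smul]⟩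

theorem pr_map {F : Type} [Field F] {k : ℕ} {x y : Fin k → F}
    (φ : (Fin k → F) ≃ₗ[F] (Fin k → F)) (h : Pr x y) : Pr (φ x) (φ y) := by
  obtain ⟨c, hc, h1⟩ := h
  exact ⟨c, hc, by rw [h1, map_smul]⟩

theorem t_MO4 : S_MO1 → S_MO2 → S_MO3 → S_MO4 := by
  intro h1 h2 h3 F _ _ _ ι _ k t t' Φ hk hkq hkι ht ht' hΦ
  classical
  obtain ⟨i₀, i₁, i₂, h01, h02, h12⟩ := Fintype.two_lt_card_iff.1 (by omega : 2 < Fintype.card ι)
  obtain ⟨g1, g2, g3, g4⟩ := h1 F
  obtain ⟨a, b, c, d, hdet, m0, m1, _⟩ := g2 (t i₀) (t i₁) (t i₂) (ht.ne h01) (ht.ne h02) (ht.ne h12)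
  obtain ⟨a', b', c', d', hdet', m0', m1', _⟩ := g2 (t' i₀) (t' i₁) (t' i₂) (ht'.ne h01)
    (ht'.ne h02) (ht'.ne h12)
  obtain ⟨M, hM⟩ := h2 F k hk hkq a b c d hdet
  obtain ⟨M', hM'⟩ := h2 F k hk hkq a' b' c' d' hdet'
  have hMi : ∀ s, Pr (M.symm (nrc k (mo a b c d s))) (nrc k s) := by
    intro s
    have e1 := pr_symm (pr_map M.symm (hM s))
    rw [LinearEquiv.symm_apply_apply] at e1
    exact e1
  have hMi' : ∀ s, Pr (M'.symm (nrc k (mo a' b' c' d' s))) (nrc k s) := by
    intro s
    have e1 := pr_symm (pr_map M'.symm (hM' s))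
    rw [LinearEquiv.symm_apply_apply] at e1
    exact e1
  obtain ⟨α, hα, hΨ⟩ := h3 F ι k (fun i => mo a b c d (t i)) (fun i => mo a' b' c' d' (t' i))
    ((M.symm.trans Φ).trans M') i₀ i₁ hk hkι ((g1 a b c d hdet).comp ht)
    ((g1 a' b' c' d' hdet').comp ht') m0 m0' m1 m1' (by
      intro i
      rw [LinearEquiv.trans_apply, LinearEquiv.trans_apply]
      exact pr_trans (pr_map M' (pr_trans (pr_map Φ (hMi (t i))) (hΦ i))) (hM' (t' i)))
  have hdi : d' * a' - -b' * -c' ≠ 0 := by
    intro h
    apply hdet'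
    linear_combination h
  have hal : α * 1 - 0 * 0 ≠ (0 : F) := by
    rw [mul_one, mul_zero, sub_zero]
    exact hα
  have key : ∀ s, Pr (Φ (nrc k s)) (nrc k (mo
      (d' * (α * a + 0 * c) + -b' * (0 * a + 1 * c)) (d' * (α * b + 0 * d) + -b' * (0 * b + 1 * d))
      (-c' * (α * a + 0 * c) + a' * (0 * a + 1 * c))
      (-c' * (α * b + 0 * d) + a' * (0 * b + 1 * d)) s)) := by
    intro s
    have e1 : Pr (Φ (nrc k s)) (M'.symm (((M.symm.trans Φ).trans M') (nrc k (mo a b c d s)))) := by
      rw [LinearEquiv.trans_apply, LinearEquiv.trans_apply, LinearEquiv.symm_apply_apply]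
      exact pr_symm (pr_map Φ (hMi s))
    have e2 := pr_trans e1 (pr_map M'.symm (hΨ (mo a b c d s)))
    have e3 : mo a' b' c' d' (mo d' (-b') (-c') a' (mo α 0 0 1 (mo a b c d s))) =
        mo α 0 0 1 (mo a b c d s) := by
      have e4 := g4 d' (-b') (-c') a' hdi (mo α 0 0 1 (mo a b c d s))
      rw [neg_neg, neg_neg] at e4
      exact e4
    have e5 : Pr (Φ (nrc k s)) (nrc k (mo d' (-b') (-c') a' (mo α 0 0 1 (mo a b c d s)))) := by
      refine pr_trans e2 ?_
      have e6 := hMi' (mo d' (-b') (-c') a' (mo α 0 0 1 (mo a b c d s)))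
      rw [e3] at e6
      exact e6
    rw [mo_comp α 0 0 1 a b c d hdet, mo_comp] at e5
    · exact e5
    · intro h
      apply mul_ne_zero hα hdet
      linear_combination h
  refine ⟨_, _, _, _, ?_, key⟩
  intro h
  apply mul_ne_zero hdet' (mul_ne_zero hα hdet)
  linear_combination h

end Pool.Agent.Q285.NCC
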