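import Pool.Agent.Q136.NCC.Stm

set_option autoImplicit false

/-! Project NCC (helper136), job POD: arcs from squares, odd order. -/

namespace Pool.Agent.Q285.NCC

open Finset Polynomial Pool.Agent.Q136.NCC
open Pool.Agent.Q136.RNC (nrc fn pr)

/-- the number of the nonzero squares -/
theorem card_sq (F : Type) [Field F] [Fintype F] [DecidableEq F] (hF : ringChar F ≠ 2) :
    2 * (univ.filter (fun s : F => s ≠ 0 ∧ IsSquare s)).card + 1 = Fintype.card F := by
  have h1 := quadraticChar_sum_zero hF
  have h2 : ∀ a : F, (1 : ℤ) + quadraticChar F a =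
      2 * (if a ≠ 0 ∧ IsSquare a then 1 else 0) + (if a = 0 then 1 else 0) := by
    intro a
    rw [quadraticChar_apply, quadraticCharFun]
    by_cases h0 : a = 0
    · simp [h0]
    · by_cases hs : IsSquare a
      · simp [h0, hs]
      · simp [h0, hs]
  have h3 : ∑ a : F, ((1 : ℤ) + quadraticChar F a) = Fintype.card F := by
    rw [sum_add_distrib, h1, add_zero, sum_const, card_univ, nsmul_eq_mul, mul_one]
  rw [sum_congr rfl (fun a _ => h2 a), sum_add_distrib, ← mul_sum, sum_boole, sum_boole] at h3
  have h4 : (univ.filter (fun a : F => a = 0)).card = 1 := by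
    rw [filter_eq' univ (0 : F), if_pos (mem_univ _), card_singleton]
  rw [h4] at h3
  exact_mod_cast h3

/-- the functional of the vector `e_0 + c e_(k-1)` -/
theorem fn_two {F : Type} [Field F] {k : ℕ} (hk : 3 ≤ k) (c : F) (f : F[X]) :
    fn (fun i : Fin k => (if (i : ℕ) = 0 then 1 else 0) + (if (i : ℕ) + 1 = k then c else 0)) f =
      f.coeff 0 + c * f.coeff (k - 1) := by
  unfold fn
  rw [LinearMap.sum_apply]
  have h1 : ∀ i : Fin k, (((if (i : ℕ) = 0 then (1 : F) else 0) + (if (i : ℕ) + 1 = k then c else 0)) •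
      Polynomial.lcoeff F (i : ℕ)) f = (fun j : ℕ => (if j = 0 then f.coeff j else 0) +
        (if j = k - 1 then c * f.coeff j else 0)) (i : ℕ) := by
    intro i
    rw [LinearMap.smul_apply, Polynomial.lcoeff_apply, smul_eq_mul, add_mul]
    congr 1
    · split_ifs <;> simp
    · by_cases h2 : (i : ℕ) + 1 = k
      · rw [if_pos h2, if_pos (by omega)]
      · rw [if_neg h2, if_neg (by omega), zero_mul]
  rw [sum_congr rfl (fun i _ => h1 i), Fin.sum_univ_eq_sum_range (fun j : ℕ =>
    (if j = 0 then f.coeff j else 0) + (if j = k - 1 then c * f.coeff j else 0)) k,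
    sum_add_distrib, sum_ite_eq' (range k), sum_ite_eq' (range k),
    if_pos (mem_range.2 (by omega)), if_pos (mem_range.2 (by omega))]

theorem t_POD : S_POD := by
  intro F _ _ k hF hk
  classical
  obtain ⟨ν, hν⟩ := FiniteField.exists_nonsquare hF
  have hν0 : ν ≠ 0 := by
    rintro rfl
    exact hν ⟨0, by simp⟩
  have hc0 : (-1) ^ k * ν ≠ 0 := mul_ne_zero (pow_ne_zero _ (neg_ne_zero.2 one_ne_zero)) hν0
  refine ⟨fun i : Fin k => (if (i : ℕ) = 0 then 1 else 0) +
    (if (i : ℕ) + 1 = k then (-1) ^ k * ν else 0),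
    univ.filter (fun s : F => s ≠ 0 ∧ IsSquare s), card_sq F hF, ?_, ?_⟩
  · intro R hR hRk
    rw [fn_two hk]
    have hm : (pr R).coeff (k - 1) = 1 := by
      have h1 : (pr R).natDegree = k - 1 := by
        unfold pr
        rw [natDegree_prod_of_monic _ _ (fun s _ => monic_X_sub_C s)]
        simp only [natDegree_X_sub_C, sum_const, smul_eq_mul, mul_one]
        omega
      rw [← h1]
      exact monic_prod_of_monic _ _ (fun s _ => monic_X_sub_C s)
    have h0 : (pr R).coeff 0 = (-1) ^ (k - 1) * ∏ s ∈ R, s := by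
      unfold pr
      rw [coeff_zero_eq_eval_zero, eval_prod]
      have h2 : ∀ s ∈ R, (X - C s : F[X]).eval 0 = -1 * s := by
        intro s _
        simp
      rw [prod_congr rfl h2, prod_mul_distrib, prod_const]
      congr 2
      omega
    rw [hm, h0, mul_one]
    intro h3
    have hsq : IsSquare (∏ s ∈ R, s) := by
      apply Finset.isSquare_prod
      intro s hs
      exact (mem_filter.1 (hR hs)).2.2
    apply hν
    have h4 : ν = ∏ s ∈ R, s := by
      obtain ⟨j, hj⟩ : ∃ j, k = j + 1 := ⟨k - 1, by omega⟩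
      subst hj
      have e : j + 1 - 1 = j := by omega
      rw [e, pow_succ] at h3
      have h5 : (-1 : F) ^ j * (∏ s ∈ R, s - ν) = 0 := by linear_combination h3
      have h6 := (mul_eq_zero.1 h5).resolve_left (pow_ne_zero _ (neg_ne_zero.2 one_ne_zero))
      linear_combination -h6
    rw [h4]
    exact hsq
  · rintro t ⟨a, ha, hP⟩
    have e0 := congrFun hP ⟨0, by omega⟩
    have e1 := congrFun hP ⟨1, by omega⟩
    have e2 := congrFun hP ⟨k - 1, by omega⟩
    cases t with
    | none =>
      simp only [nrc, Pi.smul_apply, smul_eq_mul] at e0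
      have h9 : ¬ (0 + 1 = k) := by omega
      rw [if_pos trivial, if_neg h9, if_neg h9] at e0
      simp at e0
    | some s =>
      simp only [nrc, Pi.smul_apply, smul_eq_mul] at e0 e1 e2
      rw [if_neg (by omega), if_neg (by omega)] at e1
      rw [if_neg (by omega), if_pos (by omega)] at e2
      have hs : s = 0 := by
        have e3 : a * s = 0 := by
          rw [pow_one] at e1
          linear_combination -e1
        exact (mul_eq_zero.1 e3).resolve_left ha
      rw [hs, zero_pow (by omega), mul_zero, zero_add] at e2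
      exact hc0 e2

end Pool.Agent.Q285.NCC
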